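import Mathlib

/-!
# No smoothing-step threshold for the V-cycle below regularity one half

The hierarchies, hypotheses (G3), (R), (A2) and the symmetric V-cycle of the problem, and a proof
that for every regularity exponent `0 < α ≤ 1/2` no number of smoothing steps makes the V-cycle
contract uniformly.
-/

open Matrix

namespace Pool.Agent.Results.MP_89e789_an.NoThreshold

/-- The energy norm `‖v‖_A = (vᵀ A v)^(1/2)`. -/
noncomputable def energyNorm {k : ℕ} (A : Matrix (Fin k) (Fin k) ℝ) (v : Fin k → ℝ) : ℝ :=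
  Real.sqrt (v ⬝ᵥ (A *ᵥ v))

/-- The Euclidean norm. -/
noncomputable def euclNorm {k : ℕ} (v : Fin k → ℝ) : ℝ := Real.sqrt (v ⬝ᵥ v)

/-- The spectral radius of a real (here always symmetric positive definite) matrix. -/
noncomputable def rho {k : ℕ} (A : Matrix (Fin k) (Fin k) ℝ) : ℝ := (spectralRadius ℝ A).toReal

/-- The data of a hierarchy: level matrices `A ℓ`, prolongations `P ℓ` from level `ℓ` to level
`ℓ + 1`, restrictions `R ℓ` from level `ℓ + 1` to level `ℓ`, and smoother parameters `Λ ℓ`.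
Only the levels up to the depth matter. -/
structure Hierarchy where
  /-- the dimensions -/
  n : ℕ → ℕ
  /-- the level matrices -/
  A : (ℓ : ℕ) → Matrix (Fin (n ℓ)) (Fin (n ℓ)) ℝ
  /-- prolongation from level `ℓ` to level `ℓ + 1` -/
  P : (ℓ : ℕ) → Matrix (Fin (n (ℓ + 1))) (Fin (n ℓ)) ℝ
  /-- restriction from level `ℓ + 1` to level `ℓ` -/
  R : (ℓ : ℕ) → Matrix (Fin (n ℓ)) (Fin (n (ℓ + 1))) ℝ
  /-- the parameters of the Richardson smoothers -/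
  Λ : ℕ → ℝ

namespace Hierarchy

/-- `Π_ℓ = A_ℓ⁻¹ R_ℓ A_(ℓ+1)`. -/
noncomputable def Pi (H : Hierarchy) (ℓ : ℕ) : Matrix (Fin (H.n ℓ)) (Fin (H.n (ℓ + 1))) ℝ :=
  (H.A ℓ)⁻¹ * H.R ℓ * H.A (ℓ + 1)

/-- The Richardson smoother `K_ℓ = I - Λ_ℓ⁻¹ A_ℓ`. -/
noncomputable def K (H : Hierarchy) (ℓ : ℕ) : Matrix (Fin (H.n ℓ)) (Fin (H.n ℓ)) ℝ :=
  1 - (H.Λ ℓ)⁻¹ • H.A ℓ

/-- The error operators of the symmetric V-cycle with `m` pre- and `m` post-smoothing steps: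
`E_0 = 0` and `E_(ℓ+1) = K^m (I - P (I - E_ℓ) Π) K^m`. -/
noncomputable def E (H : Hierarchy) (m : ℕ) : (ℓ : ℕ) → Matrix (Fin (H.n ℓ)) (Fin (H.n ℓ)) ℝ
  | 0 => 0
  | ℓ + 1 => H.K (ℓ + 1) ^ m * (1 - H.P ℓ * (1 - E H m ℓ) * H.Pi ℓ) * H.K (ℓ + 1) ^ m

/-- The hierarchy of depth `L` has symmetric positive definite level matrices and prolongations of
full column rank, and satisfies (G3), (R) with constant `CR`, and (A2) with exponent `α` and
constant `CA`. -/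
structure Admissible (H : Hierarchy) (L : ℕ) (CR CA α : ℝ) : Prop where
  /-- the level matrices are symmetric positive definite -/
  posDef : ∀ ℓ, ℓ ≤ L → (H.A ℓ).PosDef
  /-- the prolongations have full column rank -/
  fullRank : ∀ ℓ, ℓ < L → (H.P ℓ).rank = H.n ℓ
  /-- (G3) -/
  galerkin : ∃ r : ℝ, 0 < r ∧ r < 1 ∧ ∀ ℓ, ℓ < L →
    H.R ℓ = r • (H.P ℓ)ᵀ ∧ H.R ℓ * H.A (ℓ + 1) * H.P ℓ = (2 : ℝ) • H.A ℓ
  /-- (R) -/
  richardson : ∀ ℓ, ℓ < L → rho (H.A (ℓ + 1)) ≤ H.Λ (ℓ + 1) ∧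
    H.Λ (ℓ + 1) ≤ CR * rho (H.A (ℓ + 1))
  /-- (A2) -/
  approx : ∀ ℓ, ℓ < L → ∀ v : Fin (H.n (ℓ + 1)) → ℝ,
    |((1 - H.P ℓ * H.Pi ℓ) *ᵥ v) ⬝ᵥ (H.A (ℓ + 1) *ᵥ v)| ≤
      CA ^ (2 * α) / rho (H.A (ℓ + 1)) ^ α *
        euclNorm (H.A (ℓ + 1) *ᵥ v) ^ (2 * α) * energyNorm (H.A (ℓ + 1)) v ^ (2 * (1 - α))

end Hierarchy

/-- Uniform V-cycle contraction for `(CR, CA, α, m)`: one `δ < 1` bounds the energy norm of `E_L`
for all admissible hierarchies of all depths `L ≥ 1`. -/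
def UniformContraction (CR CA α : ℝ) (m : ℕ) : Prop :=
  ∃ δ : ℝ, δ < 1 ∧ ∀ (H : Hierarchy) (L : ℕ), 1 ≤ L → H.Admissible L CR CA α →
    ∀ v : Fin (H.n L) → ℝ,
      energyNorm (H.A L) (H.E m L *ᵥ v) ≤ δ * energyNorm (H.A L) v

/-! ### The example -/

/-- level matrix `diag(t², 1, …, 1)` -/
noncomputable def exA (t : ℝ) (ℓ : ℕ) : Matrix (Fin (ℓ + 1)) (Fin (ℓ + 1)) ℝ :=
  Matrix.diagonal (Fin.cons (t ^ 2) fun _ => 1)

/-- prolongation -/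
noncomputable def exP (t c s : ℝ) (ℓ : ℕ) : Matrix (Fin (ℓ + 1 + 1)) (Fin (ℓ + 1)) ℝ :=
  Matrix.of fun i j => Fin.cases (Fin.cases (2 * c) (fun i' => Fin.cases (2 * s * t) (fun _ => 0) i') i)
    (fun j' => if i = j'.succ.succ then 2 else 0) j

/-- the example hierarchy -/
noncomputable def exH (t c s : ℝ) : Hierarchy where
  n := fun ℓ => ℓ + 1
  A := exA t
  P := exP t c s
  R := fun ℓ => (1 / 2 : ℝ) • (exP t c s ℓ)ᵀ
  Λ := fun _ => 1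

lemma exA_mulVec (t : ℝ) (ℓ : ℕ) (v : Fin (ℓ + 1) → ℝ) :
    exA t ℓ *ᵥ v = Fin.cons (t ^ 2 * v 0) (fun j => v j.succ) := by
  funext i
  rw [exA, Matrix.mulVec_diagonal]
  refine Fin.cases ?_ (fun j => ?_) i <;> simp

lemma exP_mulVec (t c s : ℝ) (ℓ : ℕ) (w : Fin (ℓ + 1) → ℝ) :
    exP t c s ℓ *ᵥ w =
      Fin.cons (2 * c * w 0) (Fin.cons (2 * s * t * w 0) (fun j => 2 * w j.succ)) := by
  funext i
  refine Fin.cases ?_ (fun i => Fin.cases ?_ (fun j => ?_) i) i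
  · simp [exP, Matrix.mulVec, dotProduct, Fin.sum_univ_succ, (Fin.succ_ne_zero _).symm]
  · have h1 : ∀ x : Fin ℓ, ¬ ((Fin.succ (0 : Fin (ℓ + 1))) = x.succ.succ) := by
      intro x h
      exact (Fin.succ_ne_zero x) (Fin.succ_injective _ h).symm
    rw [Matrix.mulVec, dotProduct, Fin.sum_univ_succ]
    simp only [exP, Matrix.of_apply, Fin.cases_zero, Fin.cases_succ, h1, if_false, zero_mul,
      Finset.sum_const_zero, add_zero, Fin.cons_succ, Fin.cons_zero]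
  · simp [exP, Matrix.mulVec, dotProduct, Fin.sum_univ_succ]

lemma exPT_mulVec (t c s : ℝ) (ℓ : ℕ) (v : Fin (ℓ + 1 + 1) → ℝ) :
    (exP t c s ℓ)ᵀ *ᵥ v =
      Fin.cons (2 * c * v 0 + 2 * s * t * v 1) (fun j => 2 * v j.succ.succ) := by
  funext i
  refine Fin.cases ?_ (fun j => ?_) i
  · simp [exP, Matrix.mulVec, dotProduct, Fin.sum_univ_succ]
  · simp [exP, Matrix.mulVec, dotProduct]

lemma exA_inv (t : ℝ) (ht : t ≠ 0) (ℓ : ℕ) :
    (exA t ℓ)⁻¹ = Matrix.diagonal (Fin.cons ((t ^ 2)⁻¹) fun _ => 1) := by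
  apply Matrix.inv_eq_right_inv
  rw [exA, Matrix.diagonal_mul_diagonal, ← Matrix.diagonal_one]
  congr 1
  funext i
  refine Fin.cases ?_ (fun j => ?_) i
  · simp [ht]
  · simp

/-- the operator `Π` of the example -/
noncomputable def exPi (t c s : ℝ) (ℓ : ℕ) : Matrix (Fin (ℓ + 1)) (Fin (ℓ + 1 + 1)) ℝ :=
  (exA t ℓ)⁻¹ * ((1 / 2 : ℝ) • (exP t c s ℓ)ᵀ) * exA t (ℓ + 1)

lemma exPi_mulVec (t c s : ℝ) (ht : t ≠ 0) (ℓ : ℕ) (v : Fin (ℓ + 1 + 1) → ℝ) :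
    exPi t c s ℓ *ᵥ v = Fin.cons (c * v 0 + s / t * v 1) (fun j => v j.succ.succ) := by
  have h : exPi t c s ℓ *ᵥ v =
      (exA t ℓ)⁻¹ *ᵥ (((1 / 2 : ℝ) • (exP t c s ℓ)ᵀ) *ᵥ (exA t (ℓ + 1) *ᵥ v)) := by
    rw [Matrix.mulVec_mulVec, Matrix.mulVec_mulVec, exPi]
  rw [h, exA_mulVec, Matrix.smul_mulVec, exPT_mulVec, exA_inv t ht]
  funext i
  rw [Matrix.mulVec_diagonal]
  refine Fin.cases ?_ (fun j => ?_) i
  · simp only [Fin.cons_zero, Pi.smul_apply, smul_eq_mul]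
    have : (Fin.cons (t ^ 2 * v 0) (fun j => v j.succ) : Fin (ℓ + 1 + 1) → ℝ) 1 = v 1 := by
      rw [← Fin.succ_zero_eq_one, Fin.cons_succ]
    rw [this]
    field_simp
  · simp

lemma one_sub_PPi (t c s : ℝ) (ht : t ≠ 0) (ℓ : ℕ) (v : Fin (ℓ + 1 + 1) → ℝ) :
    ((1 : Matrix (Fin (ℓ + 1 + 1)) (Fin (ℓ + 1 + 1)) ℝ) - exP t c s ℓ * exPi t c s ℓ) *ᵥ v =
      Fin.cons ((1 - 2 * c ^ 2) * v 0 - 2 * c * s / t * v 1)
        (Fin.cons ((1 - 2 * s ^ 2) * v 1 - 2 * s * t * c * v 0) (fun j => - v j.succ.succ)) := by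
  rw [Matrix.sub_mulVec, Matrix.one_mulVec, ← Matrix.mulVec_mulVec, exPi_mulVec t c s ht,
    exP_mulVec]
  funext i
  refine Fin.cases ?_ (fun i => Fin.cases ?_ (fun j => ?_) i) i
  · simp only [Pi.sub_apply, Fin.cons_zero]
    field_simp
    ring
  · have e : v (Fin.succ 0) = v 1 := by rw [Fin.succ_zero_eq_one]
    simp only [Pi.sub_apply, Fin.cons_zero, Fin.cons_succ, e]
    field_simp
    ring
  · simp only [Pi.sub_apply, Fin.cons_succ]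
    ring

lemma dot_cons {k : ℕ} (a b : ℝ) (u v : Fin k → ℝ) :
    (Fin.cons a u : Fin (k + 1) → ℝ) ⬝ᵥ (Fin.cons b v : Fin (k + 1) → ℝ) = a * b + u ⬝ᵥ v := by
  simp [dotProduct, Fin.sum_univ_succ]

/-- squared Euclidean length of the part of `v` beyond the first two coordinates -/
noncomputable def tl {ℓ : ℕ} (v : Fin (ℓ + 1 + 1) → ℝ) : ℝ :=
  (fun j : Fin ℓ => v j.succ.succ) ⬝ᵥ (fun j : Fin ℓ => v j.succ.succ)

lemma tl_nonneg {ℓ : ℕ} (v : Fin (ℓ + 1 + 1) → ℝ) : 0 ≤ tl v := by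
  unfold tl dotProduct
  exact Finset.sum_nonneg fun i _ => mul_self_nonneg _

lemma tail_eq {ℓ : ℕ} (v : Fin (ℓ + 1 + 1) → ℝ) :
    (fun j : Fin (ℓ + 1) => v j.succ) = Fin.cons (v 1) (fun j : Fin ℓ => v j.succ.succ) := by
  funext i
  refine Fin.cases ?_ (fun j => ?_) i
  · simp
  · simp

lemma vec_eq {ℓ : ℕ} (v : Fin (ℓ + 1 + 1) → ℝ) :
    v = Fin.cons (v 0) (Fin.cons (v 1) (fun j : Fin ℓ => v j.succ.succ)) := by
  funext i
  refine Fin.cases ?_ (fun i => Fin.cases ?_ (fun j => ?_) i) i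
  · simp
  · simp
  · simp

lemma energy_sq (t : ℝ) (ℓ : ℕ) (v : Fin (ℓ + 1 + 1) → ℝ) :
    v ⬝ᵥ (exA t (ℓ + 1) *ᵥ v) = t ^ 2 * v 0 ^ 2 + v 1 ^ 2 + tl v := by
  rw [exA_mulVec, tail_eq]
  conv_lhs => rw [vec_eq v]
  rw [dot_cons, dot_cons]
  simp only [Fin.cons_zero]
  have : (Fin.cons (v 0) (Fin.cons (v 1) fun j : Fin ℓ => v j.succ.succ) : Fin (ℓ + 1 + 1) → ℝ) 1
    = v 1 := by
    rw [← Fin.succ_zero_eq_one, Fin.cons_succ, Fin.cons_zero, Fin.succ_zero_eq_one]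
  simp only [this, Fin.cons_succ]
  rw [tl]
  ring

lemma eucl_sq (t : ℝ) (ℓ : ℕ) (v : Fin (ℓ + 1 + 1) → ℝ) :
    (exA t (ℓ + 1) *ᵥ v) ⬝ᵥ (exA t (ℓ + 1) *ᵥ v) = t ^ 4 * v 0 ^ 2 + v 1 ^ 2 + tl v := by
  rw [exA_mulVec, tail_eq, dot_cons, dot_cons, tl]
  ring

lemma form_eq (t c s : ℝ) (ht : t ≠ 0) (ℓ : ℕ) (v : Fin (ℓ + 1 + 1) → ℝ) :
    (((1 : Matrix (Fin (ℓ + 1 + 1)) (Fin (ℓ + 1 + 1)) ℝ) - exP t c s ℓ * exPi t c s ℓ) *ᵥ v) ⬝ᵥ
      (exA t (ℓ + 1) *ᵥ v) =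
    (1 - 2 * c ^ 2) * t ^ 2 * v 0 ^ 2 - 4 * c * s * t * v 0 * v 1 + (1 - 2 * s ^ 2) * v 1 ^ 2
      - tl v := by
  rw [one_sub_PPi t c s ht, exA_mulVec, tail_eq, dot_cons, dot_cons, tl]
  have : (fun j : Fin ℓ => - v j.succ.succ) ⬝ᵥ (fun j : Fin ℓ => v j.succ.succ)
      = - ((fun j : Fin ℓ => v j.succ.succ) ⬝ᵥ (fun j : Fin ℓ => v j.succ.succ)) := by
    simp [dotProduct]
  rw [this]
  field_simp
  ring

/-! ### Hypothesis (A2) for the example -/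

lemma rho_exA (t : ℝ) (ht0 : 0 < t) (ht1 : t ≤ 1) (ℓ : ℕ) : rho (exA t (ℓ + 1)) = 1 := by
  have h : spectralRadius ℝ (exA t (ℓ + 1)) = 1 := by
    unfold spectralRadius exA
    rw [spectrum_diagonal]
    apply le_antisymm
    · refine iSup₂_le fun k hk => ?_
      obtain ⟨i, rfl⟩ := hk
      rw [← ENNReal.coe_one, ENNReal.coe_le_coe, ← NNReal.coe_le_coe, coe_nnnorm, NNReal.coe_one]
      refine Fin.cases ?_ (fun j => ?_) i
      · rw [Fin.cons_zero, Real.norm_eq_abs, abs_of_nonneg (by positivity)]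
        nlinarith
      · rw [Fin.cons_succ]
        simp
    · refine le_iSup₂_of_le 1 ⟨Fin.succ 0, by rw [Fin.cons_succ]⟩ ?_
      simp
  rw [rho, h]
  simp

lemma pow_ineq1 {X Y α : ℝ} (hX : 0 ≤ X) (hXY : X ≤ Y) (ha : 0 < α) (ha2 : α ≤ 1 / 2) :
    X * Y ≤ X ^ (2 * α) * Y ^ (2 * (1 - α)) := by
  rcases eq_or_lt_of_le hX with h | h
  · rw [← h, zero_mul]
    exact mul_nonneg (Real.rpow_nonneg le_rfl _) (Real.rpow_nonneg (by linarith) _)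
  · have hY : 0 < Y := lt_of_lt_of_le h hXY
    have e1 : X * Y * (Y / X) ^ (1 - 2 * α) = X ^ (2 * α) * Y ^ (2 * (1 - α)) := by
      rw [Real.div_rpow hY.le h.le]
      have hx : X = X ^ (2 * α) * X ^ (1 - 2 * α) := by
        rw [← Real.rpow_add h]
        ring_nf
        rw [Real.rpow_one]
      have hy : Y * Y ^ (1 - 2 * α) = Y ^ (2 * (1 - α)) := by
        nth_rewrite 1 [← Real.rpow_one Y]
        rw [← Real.rpow_add hY]
        ring_nf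
      rw [← hy]
      have hp : 0 < X ^ (1 - 2 * α) := Real.rpow_pos_of_pos h _
      have : X * Y * (Y ^ (1 - 2 * α) / X ^ (1 - 2 * α)) =
        (X / X ^ (1 - 2 * α)) * (Y * Y ^ (1 - 2 * α)) := by ring
      rw [this]
      congr 1
      rw [div_eq_iff hp.ne']
      exact hx
    rw [← e1]
    have : 1 ≤ (Y / X) ^ (1 - 2 * α) := by
      apply Real.one_le_rpow
      · rw [le_div_iff₀ h]
        linarith
      · linarith
    nlinarith [mul_pos h hY]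

lemma pow_ineq2 {X Y α p t : ℝ} (ht : 0 < t) (hp : 0 ≤ p) (hX : t * p ≤ X) (hY : p ≤ Y)
    (ha : 0 < α) (ha2 : α ≤ 1 / 2) :
    t ^ (2 * α) * p ^ 2 ≤ X ^ (2 * α) * Y ^ (2 * (1 - α)) := by
  rcases eq_or_lt_of_le hp with h | h
  · rw [← h]
    have h1 : 0 ≤ X := by nlinarith
    have h2 : 0 ≤ Y := by linarith
    have := mul_nonneg (Real.rpow_nonneg h1 (2 * α)) (Real.rpow_nonneg h2 (2 * (1 - α)))
    simpa using this
  · have e : t ^ (2 * α) * p ^ 2 = (t * p) ^ (2 * α) * p ^ (2 * (1 - α)) := by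
      rw [Real.mul_rpow ht.le hp, mul_assoc, ← Real.rpow_add h]
      have : 2 * α + 2 * (1 - α) = ((2 : ℕ) : ℝ) := by push_cast; ring
      rw [this, Real.rpow_natCast]
    rw [e]
    have h1 : (t * p) ^ (2 * α) ≤ X ^ (2 * α) :=
      Real.rpow_le_rpow (by positivity) hX (by linarith)
    have h2 : p ^ (2 * (1 - α)) ≤ Y ^ (2 * (1 - α)) :=
      Real.rpow_le_rpow hp hY (by linarith)
    exact mul_le_mul h1 h2 (Real.rpow_nonneg hp _) (Real.rpow_nonneg (by nlinarith) _)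

lemma abs_two_mul_le {c s : ℝ} (h : c ^ 2 + s ^ 2 = 1) : |2 * c * s| ≤ 1 := by
  rw [abs_le]
  constructor
  · nlinarith [sq_nonneg (c + s)]
  · nlinarith [sq_nonneg (c - s)]

lemma exA2 (t c s α CA : ℝ) (ht0 : 0 < t) (ht1 : t ≤ 1) (ha : 0 < α) (ha2 : α ≤ 1 / 2)
    (hc : 2 * c ^ 2 = 1 + t ^ (2 * α)) (hs : 2 * s ^ 2 = 1 - t ^ (2 * α))
    (hCA : 4 ≤ CA ^ (2 * α)) (ℓ : ℕ) (v : Fin (ℓ + 1 + 1) → ℝ) :
    |(((1 : Matrix (Fin (ℓ + 1 + 1)) (Fin (ℓ + 1 + 1)) ℝ) - exP t c s ℓ * exPi t c s ℓ) *ᵥ v) ⬝ᵥ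
      (exA t (ℓ + 1) *ᵥ v)| ≤
    CA ^ (2 * α) / rho (exA t (ℓ + 1)) ^ α *
      euclNorm (exA t (ℓ + 1) *ᵥ v) ^ (2 * α) * energyNorm (exA t (ℓ + 1)) v ^ (2 * (1 - α)) := by
  have hη0 : 0 < t ^ (2 * α) := Real.rpow_pos_of_pos ht0 _
  have hη1 : t ^ (2 * α) ≤ 1 := Real.rpow_le_one ht0.le ht1 (by linarith)
  rw [rho_exA t ht0 ht1, Real.one_rpow, div_one, form_eq t c s ht0.ne', euclNorm, energyNorm,
    energy_sq, eucl_sq]
  set η := t ^ (2 * α) with hη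
  have hT0 := tl_nonneg v
  set T := tl v with hT
  set X := Real.sqrt (t ^ 4 * v 0 ^ 2 + v 1 ^ 2 + T) with hX
  set Y := Real.sqrt (t ^ 2 * v 0 ^ 2 + v 1 ^ 2 + T) with hY
  have hX0 : 0 ≤ X := Real.sqrt_nonneg _
  have hY0 : 0 ≤ Y := Real.sqrt_nonneg _
  have hXs : X ^ 2 = t ^ 4 * v 0 ^ 2 + v 1 ^ 2 + T := Real.sq_sqrt (by positivity)
  have hYs : Y ^ 2 = t ^ 2 * v 0 ^ 2 + v 1 ^ 2 + T := Real.sq_sqrt (by positivity)
  have ht2 : t ^ 2 ≤ 1 := by nlinarith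
  have ht4 : t ^ 4 ≤ t ^ 2 := by nlinarith [sq_nonneg t]
  have hXY : X ≤ Y := by
    apply Real.sqrt_le_sqrt
    nlinarith [sq_nonneg (v 0)]
  set p := t * |v 0| with hp
  have hp0 : 0 ≤ p := by positivity
  have hps : p ^ 2 = t ^ 2 * v 0 ^ 2 := by rw [hp, mul_pow, sq_abs]
  have hpX : t * p ≤ X := by
    apply Real.le_sqrt_of_sq_le
    have : (t * p) ^ 2 = t ^ 4 * v 0 ^ 2 := by rw [mul_pow, hps]; ring
    rw [this]
    nlinarith [sq_nonneg (v 1)]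
  have hpY : p ≤ Y := by
    apply Real.le_sqrt_of_sq_le
    rw [hps]
    nlinarith [sq_nonneg (v 1)]
  have hv1X : |v 1| ≤ X := by
    apply Real.le_sqrt_of_sq_le
    rw [sq_abs]
    nlinarith [sq_nonneg (v 0), mul_nonneg (pow_nonneg ht0.le 4) (sq_nonneg (v 0))]
  set W := X ^ (2 * α) * Y ^ (2 * (1 - α)) with hW
  have hW1 : X * Y ≤ W := pow_ineq1 hX0 hXY ha ha2
  have hW2 : η * p ^ 2 ≤ W := pow_ineq2 ht0 hp0 hpX hpY ha ha2
  have hW0 : 0 ≤ W := le_trans (mul_nonneg hX0 hY0) hW1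
  have hW3 : v 1 ^ 2 + T ≤ W := by
    refine le_trans ?_ hW1
    have : v 1 ^ 2 + T ≤ X ^ 2 := by
      rw [hXs]
      nlinarith [mul_nonneg (pow_nonneg ht0.le 4) (sq_nonneg (v 0))]
    nlinarith
  have hW4 : p * |v 1| ≤ W := by
    refine le_trans ?_ hW1
    rw [mul_comm X Y]
    exact mul_le_mul hpY hv1X (abs_nonneg _) hY0
  have hcs : |2 * c * s| ≤ 1 := abs_two_mul_le (by linarith)
  have hcross : |4 * c * s * t * v 0 * v 1| ≤ 2 * (p * |v 1|) := by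
    have : 4 * c * s * t * v 0 * v 1 = 2 * (2 * c * s) * (t * v 0 * v 1) := by ring
    rw [this, abs_mul, abs_mul 2, abs_mul (t * v 0), abs_mul t, abs_of_pos ht0, abs_two]
    have h0 : 0 ≤ t * |v 0| * |v 1| := by positivity
    rw [hp]
    have h9 : |2 * c * s| * (t * |v 0| * |v 1|) ≤ 1 * (t * |v 0| * |v 1|) :=
      mul_le_mul_of_nonneg_right hcs h0
    linarith
  have hmain : |(1 - 2 * c ^ 2) * t ^ 2 * v 0 ^ 2 - 4 * c * s * t * v 0 * v 1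
      + (1 - 2 * s ^ 2) * v 1 ^ 2 - T| ≤ 4 * W := by
    have e : (1 - 2 * c ^ 2) * t ^ 2 * v 0 ^ 2 - 4 * c * s * t * v 0 * v 1
      + (1 - 2 * s ^ 2) * v 1 ^ 2 - T = - (η * p ^ 2) - 4 * c * s * t * v 0 * v 1
        + η * v 1 ^ 2 - T := by
      rw [hc, hs, hps]
      ring
    rw [e]
    have hη3 : η * v 1 ^ 2 ≤ v 1 ^ 2 := by nlinarith [sq_nonneg (v 1)]
    have hη4 : 0 ≤ η * v 1 ^ 2 := by positivity
    have hη5 : 0 ≤ η * p ^ 2 := by positivity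
    have hv1 : 0 ≤ v 1 ^ 2 := sq_nonneg _
    have hc1 := abs_le.mp hcross
    rw [abs_le]
    constructor
    · linarith [hc1.1, hc1.2]
    · linarith [hc1.1, hc1.2]
  calc _ ≤ 4 * W := hmain
    _ ≤ CA ^ (2 * α) * W := by nlinarith
    _ = CA ^ (2 * α) * X ^ (2 * α) * Y ^ (2 * (1 - α)) := by rw [hW]; ring

/-! ### The V-cycle of the example -/

/-- the smoother of the example -/
noncomputable def exK (t : ℝ) (ℓ : ℕ) : Matrix (Fin (ℓ + 1)) (Fin (ℓ + 1)) ℝ :=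
  1 - (1 : ℝ)⁻¹ • exA t ℓ

lemma exK_eq (t : ℝ) (ℓ : ℕ) :
    exK t ℓ = Matrix.diagonal (Fin.cons (1 - t ^ 2) fun _ => 0) := by
  rw [exK, inv_one, one_smul, exA, ← Matrix.diagonal_one, Matrix.diagonal_sub]
  congr 1
  funext i
  refine Fin.cases ?_ (fun j => ?_) i <;> simp

lemma exKpow_mulVec (t : ℝ) (ℓ m : ℕ) (hm : 1 ≤ m) (v : Fin (ℓ + 1) → ℝ) :
    exK t ℓ ^ m *ᵥ v = Fin.cons ((1 - t ^ 2) ^ m * v 0) (fun _ => 0) := by
  rw [exK_eq, Matrix.diagonal_pow]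
  funext i
  rw [Matrix.mulVec_diagonal]
  refine Fin.cases ?_ (fun j => ?_) i
  · simp
  · simp [Nat.one_le_iff_ne_zero.mp hm]

/-- the error operators of the example -/
noncomputable def exE (t c s : ℝ) (m : ℕ) : (ℓ : ℕ) → Matrix (Fin (ℓ + 1)) (Fin (ℓ + 1)) ℝ
  | 0 => 0
  | ℓ + 1 => exK t (ℓ + 1) ^ m * (1 - exP t c s ℓ * (1 - exE t c s m ℓ) * exPi t c s ℓ) *
      exK t (ℓ + 1) ^ m

/-- the scalar recursion -/
noncomputable def exe (t η : ℝ) (m : ℕ) : ℕ → ℝ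
  | 0 => 0
  | ℓ + 1 => (1 - t ^ 2) ^ (2 * m) * (η + (1 + η) * exe t η m ℓ)

lemma exE_mulVec (t c s η : ℝ) (ht : t ≠ 0) (hc : 2 * c ^ 2 = 1 + η) (m : ℕ) (hm : 1 ≤ m) (ℓ : ℕ) :
    exE t c s m ℓ *ᵥ (Fin.cons 1 fun _ => 0) = Fin.cons (- exe t η m ℓ) fun _ => 0 := by
  induction ℓ with
  | zero =>
    rw [exE, exe, Matrix.zero_mulVec]
    funext i
    refine Fin.cases ?_ (fun j => ?_) i <;> simp
  | succ ℓ ih =>
    have h0 : exK t (ℓ + 1) ^ m *ᵥ (Fin.cons 1 fun _ => 0) =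
        Fin.cons ((1 - t ^ 2) ^ m) fun _ => 0 := by
      rw [exKpow_mulVec t (ℓ + 1) m hm, Fin.cons_zero, mul_one]
    rw [exE, ← Matrix.mulVec_mulVec, ← Matrix.mulVec_mulVec, h0]
    set θ := (1 - t ^ 2) ^ m with hθ
    rw [Matrix.sub_mulVec, Matrix.one_mulVec, ← Matrix.mulVec_mulVec, ← Matrix.mulVec_mulVec,
      exPi_mulVec t c s ht]
    have h1 : (Fin.cons θ (fun _ => 0) : Fin (ℓ + 1 + 1) → ℝ) 1 = 0 := by
      rw [← Fin.succ_zero_eq_one, Fin.cons_succ]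
    have h2 : (Fin.cons (c * (Fin.cons θ (fun _ => 0) : Fin (ℓ + 1 + 1) → ℝ) 0
        + s / t * (Fin.cons θ (fun _ => 0) : Fin (ℓ + 1 + 1) → ℝ) 1)
        (fun j : Fin ℓ => (Fin.cons θ (fun _ => 0) : Fin (ℓ + 1 + 1) → ℝ) j.succ.succ) :
          Fin (ℓ + 1) → ℝ) = (c * θ) • (Fin.cons 1 fun _ => 0) := by
      funext i
      refine Fin.cases ?_ (fun j => ?_) i
      · simp [h1]
      · simp
    rw [h2, Matrix.sub_mulVec, Matrix.one_mulVec, Matrix.mulVec_smul, ih, exP_mulVec,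
      exKpow_mulVec t (ℓ + 1) m hm]
    funext i
    refine Fin.cases ?_ (fun j => ?_) i
    · simp only [Fin.cons_zero, Pi.sub_apply, Pi.smul_apply, smul_eq_mul, exe]
      rw [← hθ, mul_comm 2 m, pow_mul, ← hθ]
      linear_combination (-θ ^ 2 * (1 + exe t η m ℓ)) * hc
    · simp

lemma exH_E (t c s : ℝ) (m ℓ : ℕ) : (exH t c s).E m ℓ = exE t c s m ℓ := by
  induction ℓ with
  | zero => rfl
  | succ ℓ ih =>
    change (exH t c s).K (ℓ + 1) ^ m * (1 - (exH t c s).P ℓ * (1 - (exH t c s).E m ℓ) *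
      (exH t c s).Pi ℓ) * (exH t c s).K (ℓ + 1) ^ m = _
    rw [ih]
    rfl

lemma exe_lower (t η : ℝ) (m : ℕ) (hη : 0 < η) (ht : t ^ 2 < 1)
    (hκ : 1 ≤ (1 - t ^ 2) ^ (2 * m) * (1 + η)) (ℓ : ℕ) :
    (ℓ : ℝ) * ((1 - t ^ 2) ^ (2 * m) * η) ≤ exe t η m ℓ := by
  have hθ : 0 < (1 - t ^ 2) ^ (2 * m) := by
    apply pow_pos
    linarith
  induction ℓ with
  | zero => simp [exe]
  | succ ℓ ih =>
    rw [exe]
    push_cast
    set θ := (1 - t ^ 2) ^ (2 * m) with hθd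
    have h0 : 0 ≤ exe t η m ℓ := by
      refine le_trans ?_ ih
      positivity
    have h1 : exe t η m ℓ ≤ θ * (1 + η) * exe t η m ℓ := by nlinarith
    have h2 : θ * (η + (1 + η) * exe t η m ℓ) = θ * η + θ * (1 + η) * exe t η m ℓ := by ring
    rw [h2]
    linarith

lemma exP_rank (t c s : ℝ) (hc : c ≠ 0) (ℓ : ℕ) : (exP t c s ℓ).rank = ℓ + 1 := by
  have hinj : Function.Injective (exP t c s ℓ).mulVec := by
    intro w w' h
    rw [exP_mulVec, exP_mulVec] at h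
    have h0 := congrFun h 0
    simp only [Fin.cons_zero] at h0
    funext i
    refine Fin.cases ?_ (fun j => ?_) i
    · have : (2 * c) ≠ 0 := by simp [hc]
      exact mul_left_cancel₀ this h0
    · have h1 := congrFun h j.succ.succ
      simp only [Fin.cons_succ] at h1
      linarith
  have := LinearMap.finrank_range_of_inj (f := (exP t c s ℓ).mulVecLin) (by
    simpa [Matrix.coe_mulVecLin] using hinj)
  rw [Matrix.rank, this]
  simp

lemma exP_galerkin (t c s : ℝ) (hcs : c ^ 2 + s ^ 2 = 1) (ℓ : ℕ) :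
    ((1 / 2 : ℝ) • (exP t c s ℓ)ᵀ) * exA t (ℓ + 1) * exP t c s ℓ = (2 : ℝ) • exA t ℓ := by
  apply Matrix.ext_of_mulVec_single
  intro i
  generalize (Pi.single i 1 : Fin (ℓ + 1) → ℝ) = w
  rw [← Matrix.mulVec_mulVec, ← Matrix.mulVec_mulVec, exP_mulVec, exA_mulVec, Matrix.smul_mulVec,
    exPT_mulVec, Matrix.smul_mulVec, exA_mulVec]
  funext i
  refine Fin.cases ?_ (fun j => ?_) i
  · simp only [Pi.smul_apply, Fin.cons_zero, smul_eq_mul, Fin.cons_succ]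
    have h1 : (Fin.cons (t ^ 2 * (2 * c * w 0))
      (Fin.cons (2 * s * t * w 0) fun j : Fin ℓ => 2 * w j.succ) : Fin (ℓ + 1 + 1) → ℝ) 1
        = 2 * s * t * w 0 := by
      rw [← Fin.succ_zero_eq_one, Fin.cons_succ, Fin.cons_zero]
    rw [h1]
    linear_combination (2 * t ^ 2 * w 0) * hcs
  · simp only [Pi.smul_apply, smul_eq_mul, Fin.cons_succ]
    ring

lemma exH_admissible (t c s α CA CR : ℝ) (ht0 : 0 < t) (ht1 : t ≤ 1) (ha : 0 < α)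
    (ha2 : α ≤ 1 / 2) (hc : 2 * c ^ 2 = 1 + t ^ (2 * α)) (hs : 2 * s ^ 2 = 1 - t ^ (2 * α))
    (hCA : 4 ≤ CA ^ (2 * α)) (hCR : 1 ≤ CR) (L : ℕ) :
    (exH t c s).Admissible L CR CA α where
  posDef := by
    intro ℓ _
    change (exA t ℓ).PosDef
    rw [exA]
    apply Matrix.PosDef.diagonal
    intro i
    refine Fin.cases ?_ (fun j => ?_) i
    · rw [Fin.cons_zero]
      positivity
    · rw [Fin.cons_succ]
      exact one_pos
  fullRank := by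
    intro ℓ _
    have hc0 : c ≠ 0 := by
      rintro rfl
      have : 0 < t ^ (2 * α) := Real.rpow_pos_of_pos ht0 _
      nlinarith
    exact exP_rank t c s hc0 ℓ
  galerkin := ⟨1 / 2, by norm_num, by norm_num, fun ℓ _ => ⟨rfl, exP_galerkin t c s (by linarith) ℓ⟩⟩
  richardson := by
    intro ℓ _
    change rho (exA t (ℓ + 1)) ≤ 1 ∧ 1 ≤ CR * rho (exA t (ℓ + 1))
    rw [rho_exA t ht0 ht1]
    constructor
    · exact le_rfl
    · linarith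
  approx := fun ℓ _ v => exA2 t c s α CA ht0 ht1 ha ha2 hc hs hCA ℓ v

/-- for every `m` there is a small `t` for which the recursion expands -/
lemma exists_t (α : ℝ) (ha : 0 < α) (ha2 : α ≤ 1 / 2) (m : ℕ) :
    ∃ t : ℝ, 0 < t ∧ t < 1 ∧ 1 ≤ (1 - t ^ 2) ^ (2 * m) * (1 + t ^ (2 * α)) := by
  refine ⟨1 / (8 * (m + 1)), by positivity, ?_, ?_⟩
  · rw [div_lt_one (by positivity)]
    have : (0 : ℝ) ≤ m := by positivity
    linarith
  · set t : ℝ := 1 / (8 * (m + 1)) with ht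
    have hm0 : (0 : ℝ) ≤ m := by positivity
    have ht0 : 0 < t := by positivity
    have htm : t * (8 * (m + 1)) = 1 := by
      rw [ht]
      field_simp
    have ht1 : t ≤ 1 := by nlinarith
    have h1 : t ≤ t ^ (2 * α) := by
      calc t = t ^ (1 : ℝ) := (Real.rpow_one t).symm
        _ ≤ t ^ (2 * α) := Real.rpow_le_rpow_of_exponent_ge ht0 ht1 (by linarith)
    have h2 : 1 - 2 * m * t ^ 2 ≤ (1 - t ^ 2) ^ (2 * m) := by
      have := one_add_mul_le_pow (a := -t ^ 2) (by nlinarith) (2 * m)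
      push_cast at this
      have e : 1 + -t ^ 2 = 1 - t ^ 2 := by ring
      rw [e] at this
      linarith
    have h3 : m * t ≤ 1 / 8 := by nlinarith
    have h4 : 0 ≤ 1 - 2 * m * t ^ 2 := by nlinarith
    calc (1 : ℝ) ≤ (1 - 2 * m * t ^ 2) * (1 + t) := by nlinarith [mul_nonneg hm0 ht0.le]
      _ ≤ (1 - t ^ 2) ^ (2 * m) * (1 + t ^ (2 * α)) := by
        apply mul_le_mul h2 (by linarith) (by linarith) (le_trans h4 h2)

/-- **Blow-up of the V-cycle.** For every `0 < α ≤ 1/2`, every `CR ≥ 1`, every `CA` with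
`CA ^ (2α) ≥ 4`, every number `m ≥ 1` of smoothing steps and every `M` there is an admissible
hierarchy of some depth `L ≥ 1` and a vector `v` of positive energy norm with
`M * ‖v‖ ≤ ‖E_L v‖` in the energy norm. -/
theorem blowUp (α CR CA : ℝ) (ha : 0 < α) (ha2 : α ≤ 1 / 2) (hCR : 1 ≤ CR)
    (hCA : 4 ≤ CA ^ (2 * α)) (m : ℕ) (hm : 1 ≤ m) (M : ℝ) :
    ∃ (H : Hierarchy) (L : ℕ), 1 ≤ L ∧ H.Admissible L CR CA α ∧
      ∃ v : Fin (H.n L) → ℝ, 0 < energyNorm (H.A L) v ∧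
        M * energyNorm (H.A L) v ≤ energyNorm (H.A L) (H.E m L *ᵥ v) := by
  obtain ⟨t, ht0, ht1, hκ⟩ := exists_t α ha ha2 m
  have hη0 : 0 < t ^ (2 * α) := Real.rpow_pos_of_pos ht0 _
  have hη1 : t ^ (2 * α) ≤ 1 := Real.rpow_le_one ht0.le ht1.le (by linarith)
  set η := t ^ (2 * α) with hη
  have hc : 2 * (Real.sqrt ((1 + η) / 2)) ^ 2 = 1 + η := by
    rw [Real.sq_sqrt (by linarith)]
    ring
  have hs : 2 * (Real.sqrt ((1 - η) / 2)) ^ 2 = 1 - η := by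
    rw [Real.sq_sqrt (by linarith)]
    ring
  set c := Real.sqrt ((1 + η) / 2) with hcdef
  set s := Real.sqrt ((1 - η) / 2) with hsdef
  have ht2 : t ^ 2 < 1 := by nlinarith
  have hθ : 0 < (1 - t ^ 2) ^ (2 * m) * η := by
    apply mul_pos _ hη0
    apply pow_pos
    linarith
  obtain ⟨L, hL⟩ := exists_nat_gt (max M 0 / ((1 - t ^ 2) ^ (2 * m) * η))
  have hLM : max M 0 ≤ (L : ℝ) * ((1 - t ^ 2) ^ (2 * m) * η) := by
    rw [div_lt_iff₀ hθ] at hL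
    exact hL.le
  have hL0 : 1 ≤ L := by
    rcases Nat.eq_zero_or_pos L with h | h
    · rw [h] at hL
      have : 0 ≤ max M 0 / ((1 - t ^ 2) ^ (2 * m) * η) := by positivity
      norm_num at hL
      linarith
    · exact h
  refine ⟨exH t c s, L, hL0, exH_admissible t c s α CA CR ht0 ht1.le ha ha2 hc hs hCA hCR L, ?_⟩
  have hnorm : ∀ a : ℝ, energyNorm (exA t L) (Fin.cons a fun _ => 0) = t * |a| := by
    intro a
    rw [energyNorm, exA_mulVec, Fin.cons_zero]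
    have : (Fin.cons a (fun _ => 0) : Fin (L + 1) → ℝ) ⬝ᵥ
        (Fin.cons (t ^ 2 * a) (fun j => (Fin.cons a (fun _ => 0) : Fin (L + 1) → ℝ) j.succ)) =
        (t * a) ^ 2 := by
      rw [dot_cons]
      simp
      ring
    rw [this, Real.sqrt_sq_eq_abs, abs_mul, abs_of_pos ht0]
  refine ⟨(Fin.cons 1 fun _ => 0 : Fin (L + 1) → ℝ), ?_, ?_⟩
  · change 0 < energyNorm (exA t L) (Fin.cons 1 fun _ => 0)
    rw [hnorm]
    simpa using ht0
  · rw [exH_E]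
    change M * energyNorm (exA t L) (Fin.cons 1 fun _ => 0) ≤
      energyNorm (exA t L) (exE t c s m L *ᵥ (Fin.cons 1 fun _ => 0))
    rw [exE_mulVec t c s η ht0.ne' hc m hm, hnorm, hnorm, abs_neg, abs_one]
    have h1 := exe_lower t η m hη0 ht2 hκ L
    have h2 : M ≤ exe t η m L := le_trans (le_max_left _ _) (le_trans hLM h1)
    have h3 := le_abs_self (exe t η m L)
    nlinarith

/-- **No threshold.** For every `0 < α ≤ 1/2`, every `CR ≥ 1`, every `CA` with `CA ^ (2α) ≥ 4`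
and every number `m ≥ 1` of smoothing steps the V-cycle does not contract uniformly, and the
energy norms of the error operators are not even bounded. In particular there is no function
`m₀(CR, CA, α)` as asked for. -/
theorem result :
    (¬ ∃ m₀ : ℝ → ℝ → ℝ → ℕ, ∀ CR CA α : ℝ, 1 ≤ CR → 0 < CA → 0 < α → α ≤ 1 →
      ∀ m : ℕ, m₀ CR CA α ≤ m → UniformContraction CR CA α m) ∧
    ∀ α CR CA : ℝ, 0 < α → α ≤ 1 / 2 → 1 ≤ CR → 4 ≤ CA ^ (2 * α) → ∀ m : ℕ, 1 ≤ m → ∀ M : ℝ,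
      ∃ (H : Hierarchy) (L : ℕ), 1 ≤ L ∧ H.Admissible L CR CA α ∧
        ∃ v : Fin (H.n L) → ℝ, 0 < energyNorm (H.A L) v ∧
          M * energyNorm (H.A L) v ≤ energyNorm (H.A L) (H.E m L *ᵥ v) := by
  constructor
  · rintro ⟨m₀, h⟩
    obtain ⟨δ, hδ, hc⟩ := h 1 4 (1 / 2) le_rfl (by norm_num) (by norm_num) (by norm_num)
      (max 1 (m₀ 1 4 (1 / 2))) (le_max_right _ _)
    obtain ⟨H, L, hL, hH, v, hv, hM⟩ := blowUp (1 / 2) 1 4 (by norm_num) le_rfl le_rfl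
      (by norm_num) (max 1 (m₀ 1 4 (1 / 2))) (le_max_left _ _) 1
    have := hc H L hL hH v
    nlinarith
  · intro α CR CA ha ha2 hCR hCA m hm M
    exact blowUp α CR CA ha ha2 hCR hCA m hm M

end Pool.Agent.Results.MP_89e789_an.NoThreshold
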